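import Pool.Agent.L7h99.BI.Stm

/-!
Project BI (MP_187b32_an): basic facts about the kernels and the sphere.
-/

set_option autoImplicit false

open MeasureTheory Set Filter Topology Real
open scoped ENNReal

namespace Pool.Agent.L7h50.BI

open Pool.Agent.L7h99.BI

variable {d : ℕ}

instance instFin : IsFiniteMeasure (mS d) := by
  unfold mS
  infer_instance

theorem norm_sph (σ : Sd d) : ‖(σ : E d)‖ = 1 := norm_eq_of_mem_sphere σ

/-- the cosine of the angle -/
noncomputable def zz (k : E d) (σ : Sd d) : ℝ := ip k σ / ‖k‖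

theorem zz_abs (k : E d) (σ : Sd d) : |zz k σ| ≤ 1 := by
  unfold zz ip
  rw [abs_div, abs_norm]
  have h := abs_real_inner_le_norm k (σ : E d)
  rw [norm_sph, mul_one] at h
  rcases eq_or_lt_of_le (norm_nonneg k) with h0 | h0
  · rw [← h0]
    simp
  · rwa [div_le_one h0]

theorem zz_neg (k : E d) (σ : Sd d) : zz k (-σ) = -zz k σ := by
  unfold zz ip
  rw [coe_neg_sphere, inner_neg_right, neg_div]

theorem zz_meas : Measurable fun p : E d × Sd d => zz p.1 p.2 := by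
  unfold zz ip
  have h1 : Continuous fun p : E d × Sd d => inner ℝ p.1 (p.2 : E d) := by fun_prop
  exact h1.measurable.div (continuous_fst.norm.measurable)

/-! ### The kernels -/

theorem c2_pos {s : ℝ} {b : ℝ → ℝ} {c₁ c₂ : ℝ} (hK : Ker d s b c₁ c₂) : 0 < c₂ := by
  have h1 := hK.low (-1) le_rfl (by norm_num)
  have h2 := hK.upp (-1) le_rfl (by norm_num)
  have e : (1 - (-1) : ℝ) / 2 = 1 := by norm_num
  rw [e, Real.one_rpow, mul_one] at h1 h2
  exact hK.pos.trans_le (h1.trans h2)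

theorem b_nonneg {s : ℝ} {b : ℝ → ℝ} {c₁ c₂ : ℝ} (hK : Ker d s b c₁ c₂) {z : ℝ} (h1 : -1 ≤ z)
    (h2 : z < 1) : 0 ≤ b z :=
  (mul_nonneg hK.pos.le (Real.rpow_nonneg (by linarith) _)).trans (hK.low z h1 h2)

/-- bound of the truncated kernels -/
noncomputable def Bd (d : ℕ) (s c₂ ε : ℝ) : ℝ := c₂ * (ε / 2) ^ (-(((d : ℝ) - 1) / 2 + s))

theorem b_le {s : ℝ} {b : ℝ → ℝ} {c₁ c₂ : ℝ} (hd : 2 ≤ d) (hs : 0 < s) (hK : Ker d s b c₁ c₂)
    {ε z : ℝ} (hε : 0 < ε) (h1 : -1 ≤ z) (h2 : z ≤ 1 - ε) : b z ≤ Bd d s c₂ ε := by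
  refine (hK.upp z h1 (by linarith)).trans ?_
  unfold Bd
  refine mul_le_mul_of_nonneg_left ?_ (c2_pos hK).le
  have hd' : (2 : ℝ) ≤ d := by exact_mod_cast hd
  exact Real.rpow_le_rpow_of_nonpos (by linarith) (by linarith) (by linarith)

theorem Bd_nonneg {s : ℝ} {b : ℝ → ℝ} {c₁ c₂ : ℝ} (hK : Ker d s b c₁ c₂) {ε : ℝ} (hε : 0 < ε) :
    0 ≤ Bd d s c₂ ε := mul_nonneg (c2_pos hK).le (Real.rpow_nonneg (by linarith) _)

/-- the truncated kernel -/
noncomputable def be (b : ℝ → ℝ) (ε z : ℝ) : ℝ := if z < 1 - ε then b z else 0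

theorem be_bt (b : ℝ → ℝ) {ε : ℝ} (h0 : 0 < ε) (h1 : ε < 1) (z : ℝ) :
    be b ε z + be b ε (-z) = bt b ε z + bt b ε (-z) := by
  unfold be bt
  rcases lt_trichotomy z 0 with h | h | h
  · rw [if_pos (by linarith : z < 1 - ε), if_neg (by linarith : ¬ 0 < z), if_neg h.ne,
      if_pos (by linarith : 0 < -z), neg_neg]
    ring
  · subst h
    simp only [neg_zero, lt_irrefl, if_false, if_true, if_pos (by linarith : (0 : ℝ) < 1 - ε)]
  · rw [if_pos h, if_pos (by linarith : -z < 1 - ε), if_neg (by linarith : ¬ 0 < -z),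
      if_neg (by linarith : ¬ -z = 0)]
    ring

theorem be_bd {s : ℝ} {b : ℝ → ℝ} {c₁ c₂ : ℝ} (hd : 2 ≤ d) (hs : 0 < s) (hK : Ker d s b c₁ c₂)
    {ε z : ℝ} (hε : 0 < ε) (hz : |z| ≤ 1) : 0 ≤ be b ε z ∧ be b ε z ≤ Bd d s c₂ ε := by
  obtain ⟨z1, z2⟩ := abs_le.1 hz
  unfold be
  split_ifs with h
  · exact ⟨b_nonneg hK z1 (by linarith), b_le hd hs hK hε z1 h.le⟩
  · exact ⟨le_rfl, Bd_nonneg hK hε⟩

theorem bt_bd {s : ℝ} {b : ℝ → ℝ} {c₁ c₂ : ℝ} (hd : 2 ≤ d) (hs : 0 < s) (hK : Ker d s b c₁ c₂)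
    {ε z : ℝ} (hε : 0 < ε) (hε1 : ε < 1) (hz : |z| ≤ 1) :
    0 ≤ bt b ε z ∧ bt b ε z ≤ 2 * Bd d s c₂ ε := by
  obtain ⟨z1, z2⟩ := abs_le.1 hz
  have hB := Bd_nonneg (d := d) hK hε
  have h1 := be_bd hd hs hK hε hz
  unfold bt
  split_ifs with h h' h''
  · have h3 := b_nonneg hK (z := -z) (by linarith) (by linarith)
    have h4 := b_le hd hs hK hε (z := -z) (by linarith) (by linarith)
    unfold be at h1
    rw [if_pos h'] at h1
    exact ⟨by linarith, by linarith⟩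
  · have h3 := b_nonneg hK (z := -z) (by linarith) (by linarith)
    have h4 := b_le hd hs hK hε (z := -z) (by linarith) (by linarith)
    exact ⟨by linarith, by linarith⟩
  · have h3 := b_nonneg hK (z := 0) (by linarith) (by linarith)
    have h4 := b_le hd hs hK hε (z := 0) (by linarith) (by linarith)
    exact ⟨by linarith, by linarith⟩
  · exact ⟨le_rfl, by linarith⟩

theorem be_meas {b : ℝ → ℝ} (hb : Measurable b) (ε : ℝ) : Measurable (be b ε) := by
  unfold be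
  exact Measurable.ite measurableSet_Iio hb measurable_const

theorem bt_meas {b : ℝ → ℝ} (hb : Measurable b) (ε : ℝ) : Measurable (bt b ε) := by
  unfold bt
  refine Measurable.ite measurableSet_Ioi ?_ ?_
  · exact (Measurable.ite measurableSet_Iio hb measurable_const).add (hb.comp measurable_neg)
  · exact Measurable.ite (measurableSet_singleton 0) measurable_const measurable_const

/-! ### The antipodal map -/

theorem neg_emb : MeasurableEmbedding (fun σ : Sd d => -σ) :=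
  (Homeomorph.neg (Sd d)).measurableEmbedding

theorem neg_mp (h : S_ISO) : MeasurePreserving (fun σ : Sd d => -σ) (mS d) (mS d) := by
  refine ⟨neg_emb.measurable, ?_⟩
  ext A hA
  rw [Measure.map_apply neg_emb.measurable hA]
  have hm : MeasurableSet ((fun σ : Sd d => (σ : E d)) '' A) :=
    (MeasurableEmbedding.subtype_coe Metric.isClosed_sphere.measurableSet).measurableSet_image.2 hA
  have h1 := h d (LinearIsometryEquiv.neg ℝ) (((fun σ : Sd d => (σ : E d)) '' A).indicator 1)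
    (measurable_one.indicator hm)
  have e1 : ∀ σ : Sd d, ((fun σ : Sd d => (σ : E d)) '' A).indicator (1 : E d → ℝ≥0∞) (σ : E d) =
      A.indicator 1 σ := by
    intro σ
    by_cases hσ : σ ∈ A
    · have h2 : (σ : E d) ∈ (fun σ : Sd d => (σ : E d)) '' A := ⟨σ, hσ, rfl⟩
      rw [Set.indicator_of_mem hσ, Set.indicator_of_mem h2]
      rfl
    · have h2 : (σ : E d) ∉ (fun σ : Sd d => (σ : E d)) '' A := by
        rintro ⟨τ, hτ, h⟩
        exact hσ (by rwa [← Subtype.ext h])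
      rw [Set.indicator_of_notMem hσ, Set.indicator_of_notMem h2]
  have e2 : ∀ σ : Sd d, ((fun σ : Sd d => (σ : E d)) '' A).indicator (1 : E d → ℝ≥0∞)
      ((LinearIsometryEquiv.neg ℝ : E d ≃ₗᵢ[ℝ] E d) (σ : E d)) =
      ((fun σ : Sd d => -σ) ⁻¹' A).indicator 1 σ := by
    intro σ
    have : (LinearIsometryEquiv.neg ℝ : E d ≃ₗᵢ[ℝ] E d) (σ : E d) = ((-σ : Sd d) : E d) := by
      rw [LinearIsometryEquiv.coe_neg, coe_neg_sphere]
    rw [this, e1]
    rfl
  simp only [e1, e2] at h1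
  rwa [lintegral_indicator_one hA, lintegral_indicator_one (neg_emb.measurable hA)] at h1

theorem int_neg (h : S_ISO) (g : Sd d → ℝ) : ∫ σ, g (-σ) ∂(mS d) = ∫ σ, g σ ∂(mS d) :=
  (neg_mp h).integral_comp neg_emb g

end Pool.Agent.L7h50.BI
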