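import Pool.Agent.L7h50.BI.Bas

/-!
Project BI (MP_187b32_an), part QPN: the truncated collision operator is gain minus loss.
-/

set_option autoImplicit false

open MeasureTheory Set Filter Topology Real
open scoped ENNReal

namespace Pool.Agent.L7h50.BI

open Pool.Agent.L7h99.BI

variable {d : ℕ}

/-- facts about dominated functions of `(k, σ)` -/
theorem dominated {g : E d → Sd d → ℝ} (hm : Measurable (Function.uncurry g))
    (h0 : ∀ k σ, 0 ≤ g k σ) {K r : ℝ} (hr : (d : ℝ) < r)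
    (hb : ∀ k σ, g k σ ≤ K * (1 + ‖k‖) ^ (-r)) :
    (∫⁻ k : E d, ∫⁻ σ : Sd d, ENNReal.ofReal (g k σ) ∂(mS d)) ≠ ∞ ∧
    (∫⁻ k : E d, ∫⁻ σ : Sd d, ENNReal.ofReal (g k σ) ∂(mS d)).toReal =
      ∫ k : E d, ∫ σ : Sd d, g k σ ∂(mS d) ∧
    Integrable (fun k : E d => ∫ σ : Sd d, g k σ ∂(mS d)) ∧
    ∀ k : E d, Integrable (fun σ : Sd d => g k σ) (mS d) := by
  have hdom : Integrable (fun k : E d => K * (1 + ‖k‖) ^ (-r)) := by
    refine Integrable.const_mul ?_ K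
    apply integrable_one_add_norm
    rw [finrank_euclideanSpace, Fintype.card_fin]
    exact hr
  have hprod : Integrable (Function.uncurry g) ((volume : Measure (E d)).prod (mS d)) := by
    refine Integrable.mono' (hdom.comp_fst (mS d)) hm.aestronglyMeasurable
      (Filter.Eventually.of_forall ?_)
    rintro ⟨k, σ⟩
    show ‖g k σ‖ ≤ K * (1 + ‖k‖) ^ (-r)
    rw [Real.norm_of_nonneg (h0 k σ)]
    exact hb k σ
  have hlin : ∫⁻ k : E d, ∫⁻ σ : Sd d, ENNReal.ofReal (g k σ) ∂(mS d) =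
      ∫⁻ p, ENNReal.ofReal (Function.uncurry g p) ∂((volume : Measure (E d)).prod (mS d)) := by
    rw [lintegral_prod _ hm.ennreal_ofReal.aemeasurable]
    rfl
  have hfin : ∫⁻ p, ENNReal.ofReal (Function.uncurry g p)
      ∂((volume : Measure (E d)).prod (mS d)) ≠ ∞ := by
    have h1 := hprod.2
    unfold HasFiniteIntegral at h1
    refine (lt_of_le_of_lt (lintegral_mono fun p => ?_) h1).ne
    rw [← ofReal_norm]
    exact ENNReal.ofReal_le_ofReal (le_abs_self _)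
  refine ⟨?_, ?_, hprod.integral_prod_left, ?_⟩
  · rw [hlin]
    exact hfin
  · rw [hlin]
    have h1 := integral_eq_lintegral_of_nonneg_ae (μ := (volume : Measure (E d)).prod (mS d))
      (f := Function.uncurry g) (Filter.Eventually.of_forall fun p => h0 p.1 p.2)
      hm.aestronglyMeasurable
    rw [← h1, integral_prod _ hprod]
    rfl
  · intro k
    refine Integrable.mono' (integrable_const (K * (1 + ‖k‖) ^ (-r)))
      ((hm.comp measurable_prodMk_left).aestronglyMeasurable) (Filter.Eventually.of_forall ?_)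
    intro σ
    show ‖g k σ‖ ≤ _
    rw [Real.norm_of_nonneg (h0 k σ)]
    exact hb k σ

theorem FF_bd {F : E d → ℝ} {C Q : ℝ} (h0 : ∀ v, 0 ≤ F v) (hQ : 0 ≤ Q)
    (hb : ∀ v, F v ≤ C * ph Q v) (a b k : E d) (hk : ‖k‖ ^ 2 / 2 ≤ ‖a‖ ^ 2 + ‖b‖ ^ 2) :
    F a * F b ≤ C ^ 2 * 2 ^ Q * (1 + ‖k‖) ^ (-Q) := by
  have hph : ∀ v : E d, 0 < ph Q v := fun v => Real.rpow_pos_of_pos (by positivity) _
  have hC : 0 ≤ C := by
    have := (h0 0).trans (hb 0)
    exact nonneg_of_mul_nonneg_left this (hph 0)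
  have h1 : F a * F b ≤ (C * ph Q a) * (C * ph Q b) :=
    mul_le_mul (hb a) (hb b) (h0 b) (mul_nonneg hC (hph a).le)
  have h2 : ph Q a * ph Q b ≤ 2 ^ Q * (1 + ‖k‖) ^ (-Q) := by
    unfold ph
    rw [← Real.mul_rpow (by positivity) (by positivity)]
    have h3 : ((1 + ‖k‖) / 2) ^ 2 ≤ (1 + ‖a‖ ^ 2) * (1 + ‖b‖ ^ 2) := by
      have := norm_nonneg k
      have : 0 ≤ ‖a‖ ^ 2 * ‖b‖ ^ 2 := by positivity
      nlinarith [sq_nonneg (1 - ‖k‖)]
    have h4 : ((1 + ‖a‖ ^ 2) * (1 + ‖b‖ ^ 2)) ^ (-(Q / 2)) ≤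
        (((1 + ‖k‖) / 2) ^ 2) ^ (-(Q / 2)) :=
      Real.rpow_le_rpow_of_nonpos (by positivity) h3 (by linarith)
    refine h4.trans (le_of_eq ?_)
    have h5 : 0 ≤ (1 + ‖k‖) / 2 := by positivity
    rw [← Real.rpow_natCast, ← Real.rpow_mul h5]
    have e : ((2 : ℕ) : ℝ) * (-(Q / 2)) = -Q := by
      push_cast
      ring
    rw [e, Real.div_rpow (by positivity) (by norm_num), Real.rpow_neg (by norm_num : (0 : ℝ) ≤ 2)]
    field_simp
  calc F a * F b ≤ (C * ph Q a) * (C * ph Q b) := h1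
    _ = C ^ 2 * (ph Q a * ph Q b) := by ring
    _ ≤ C ^ 2 * (2 ^ Q * (1 + ‖k‖) ^ (-Q)) := mul_le_mul_of_nonneg_left h2 (sq_nonneg C)
    _ = _ := by ring

theorem bdd_int {h : Sd d → ℝ} (hm : Measurable h) {B : ℝ} (hb : ∀ σ, |h σ| ≤ B) :
    Integrable h (mS d) :=
  Integrable.mono' (integrable_const B) hm.aestronglyMeasurable
    (Filter.Eventually.of_forall fun σ => by rw [Real.norm_eq_abs]; exact hb σ)

theorem sym_int (hI : S_ISO) {h g : Sd d → ℝ} (hh : Integrable h (mS d))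
    (hg : Integrable g (mS d)) (heq : ∀ σ, h σ + h (-σ) = g σ + g (-σ)) :
    ∫ σ, h σ ∂(mS d) = ∫ σ, g σ ∂(mS d) := by
  have n1 := int_neg hI h
  have n2 := int_neg hI g
  have hh' : Integrable (fun σ => h (-σ)) (mS d) :=
    ((neg_mp hI).integrable_comp_emb neg_emb).2 hh
  have hg' : Integrable (fun σ => g (-σ)) (mS d) :=
    ((neg_mp hI).integrable_comp_emb neg_emb).2 hg
  have hsum : ∫ σ, (h σ + h (-σ)) ∂(mS d) = ∫ σ, (g σ + g (-σ)) ∂(mS d) := by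
    simp only [heq]
  rw [integral_add hh hh', integral_add hg hg', n1, n2] at hsum
  linarith

/-- [QPN] -/
theorem t_QPN : S_QPN := by
  intro hI d hd s hs hs1 γ hγ b c₁ c₂ hK ε hε hε1 F C Q hFc hF0 hQ hFC v
  have hd0 : (0 : ℝ) ≤ d := Nat.cast_nonneg d
  have hQ0 : 0 ≤ Q := by linarith
  have hB := Bd_nonneg (d := d) hK hε
  set B : ℝ := Bd d s c₂ ε with hBdef
  -- velocities
  set v1 : E d → Sd d → E d := fun k σ => v - (1 / 2 : ℝ) • (k + ‖k‖ • (σ : E d)) with hv1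
  set v2 : E d → Sd d → E d := fun k σ => v - (1 / 2 : ℝ) • (k - ‖k‖ • (σ : E d)) with hv2
  have hv12 : ∀ k σ, ‖k‖ ^ 2 / 2 ≤ ‖v1 k σ‖ ^ 2 + ‖v2 k σ‖ ^ 2 := by
    intro k σ
    have h1 := parallelogram_law_with_norm ℝ (v - (1 / 2 : ℝ) • k) ((1 / 2 : ℝ) • (‖k‖ • (σ : E d)))
    have e1 : v - (1 / 2 : ℝ) • k + (1 / 2 : ℝ) • (‖k‖ • (σ : E d)) = v2 k σ := by
      rw [hv2]
      simp only
      module
    have e2 : v - (1 / 2 : ℝ) • k - (1 / 2 : ℝ) • (‖k‖ • (σ : E d)) = v1 k σ := by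
      rw [hv1]
      simp only
      module
    have e3 : ‖(1 / 2 : ℝ) • (‖k‖ • (σ : E d))‖ = ‖k‖ / 2 := by
      rw [norm_smul, norm_smul, norm_sph, norm_norm, mul_one, Real.norm_of_nonneg (by norm_num)]
      ring
    rw [e1, e2, e3] at h1
    nlinarith [sq_nonneg ‖v - (1 / 2 : ℝ) • k‖]
  have hvk : ∀ k : E d, ‖k‖ ^ 2 / 2 ≤ ‖v - k‖ ^ 2 + ‖v‖ ^ 2 := by
    intro k
    have h1 : ‖k‖ ≤ ‖v‖ + ‖v - k‖ := by
      calc ‖k‖ = ‖v - (v - k)‖ := by rw [sub_sub_cancel]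
        _ ≤ ‖v‖ + ‖v - k‖ := norm_sub_le _ _
    nlinarith [norm_nonneg k, norm_nonneg v, norm_nonneg (v - k), sq_nonneg (‖v‖ - ‖v - k‖)]
  -- the two functions
  set g1 : E d → Sd d → ℝ := fun k σ => ‖k‖ ^ γ * bt b ε (zz k σ) * (F (v1 k σ) * F (v2 k σ)) with hg1
  set g2 : E d → Sd d → ℝ := fun k σ => ‖k‖ ^ γ * bt b ε (zz k σ) * (F (v - k) * F v) with hg2
  have hmz : Measurable fun p : E d × Sd d => bt b ε (zz p.1 p.2) := (bt_meas hK.meas ε).comp zz_meas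
  have hmk : Measurable fun p : E d × Sd d => ‖p.1‖ ^ γ := (measurable_fst.norm).pow_const γ
  have hmv1 : Measurable fun p : E d × Sd d => F (v1 p.1 p.2) := by
    have : Continuous fun p : E d × Sd d => F (v1 p.1 p.2) := by
      apply hFc.comp
      rw [hv1]
      fun_prop
    exact this.measurable
  have hmv2 : Measurable fun p : E d × Sd d => F (v2 p.1 p.2) := by
    have : Continuous fun p : E d × Sd d => F (v2 p.1 p.2) := by
      apply hFc.comp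
      rw [hv2]
      fun_prop
    exact this.measurable
  have hmvk : Measurable fun p : E d × Sd d => F (v - p.1) := by
    have : Continuous fun p : E d × Sd d => F (v - p.1) := by
      apply hFc.comp
      fun_prop
    exact this.measurable
  have hg1m : Measurable (Function.uncurry g1) := (hmk.mul hmz).mul (hmv1.mul hmv2)
  have hg2m : Measurable (Function.uncurry g2) := (hmk.mul hmz).mul (hmvk.mul measurable_const)
  have hbtb : ∀ (k : E d) (σ : Sd d), 0 ≤ bt b ε (zz k σ) ∧ bt b ε (zz k σ) ≤ 2 * B :=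
    fun k σ => bt_bd hd hs hK hε hε1 (zz_abs k σ)
  have hg10 : ∀ k σ, 0 ≤ g1 k σ := fun k σ =>
    mul_nonneg (mul_nonneg (Real.rpow_nonneg (norm_nonneg _) _) (hbtb k σ).1)
      (mul_nonneg (hF0 _) (hF0 _))
  have hg20 : ∀ k σ, 0 ≤ g2 k σ := fun k σ =>
    mul_nonneg (mul_nonneg (Real.rpow_nonneg (norm_nonneg _) _) (hbtb k σ).1)
      (mul_nonneg (hF0 _) (hF0 _))
  have hpow : ∀ k : E d, ‖k‖ ^ γ * (1 + ‖k‖) ^ (-Q) ≤ (1 + ‖k‖) ^ (-(Q - γ)) := by
    intro k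
    have h1 : ‖k‖ ^ γ ≤ (1 + ‖k‖) ^ γ :=
      Real.rpow_le_rpow (norm_nonneg _) (by linarith) hγ
    have h2 : 0 < 1 + ‖k‖ := by positivity
    calc ‖k‖ ^ γ * (1 + ‖k‖) ^ (-Q) ≤ (1 + ‖k‖) ^ γ * (1 + ‖k‖) ^ (-Q) :=
          mul_le_mul_of_nonneg_right h1 (Real.rpow_nonneg h2.le _)
      _ = _ := by
          rw [← Real.rpow_add h2]
          congr 1
          ring
  have hbound : ∀ (k : E d) (σ : Sd d) (a c : E d), ‖k‖ ^ 2 / 2 ≤ ‖a‖ ^ 2 + ‖c‖ ^ 2 →
      ‖k‖ ^ γ * bt b ε (zz k σ) * (F a * F c) ≤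
        (2 * B * (C ^ 2 * 2 ^ Q)) * (1 + ‖k‖) ^ (-(Q - γ)) := by
    intro k σ a c hac
    have h1 := FF_bd hF0 hQ0 hFC a c k hac
    have h2 := (hbtb k σ)
    have h3 : 0 ≤ ‖k‖ ^ γ := Real.rpow_nonneg (norm_nonneg _) _
    have h4 : 0 ≤ F a * F c := mul_nonneg (hF0 _) (hF0 _)
    calc ‖k‖ ^ γ * bt b ε (zz k σ) * (F a * F c) ≤ ‖k‖ ^ γ * (2 * B) * (F a * F c) :=
          mul_le_mul_of_nonneg_right (mul_le_mul_of_nonneg_left h2.2 h3) h4
      _ ≤ ‖k‖ ^ γ * (2 * B) * (C ^ 2 * 2 ^ Q * (1 + ‖k‖) ^ (-Q)) :=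
          mul_le_mul_of_nonneg_left h1 (by positivity)
      _ = (2 * B * (C ^ 2 * 2 ^ Q)) * (‖k‖ ^ γ * (1 + ‖k‖) ^ (-Q)) := by ring
      _ ≤ _ := mul_le_mul_of_nonneg_left (hpow k) (by positivity)
  have hr : (d : ℝ) < Q - γ := by linarith
  obtain ⟨a1, a2, a3, a4⟩ := dominated hg1m hg10 hr (fun k σ => hbound k σ _ _ (hv12 k σ))
  obtain ⟨c1, c2, c3, c4⟩ := dominated hg2m hg20 hr (fun k σ => hbound k σ _ _ (hvk k))
  have hg1e : ∀ (k : E d) (σ : Sd d), ENNReal.ofReal (g1 k σ) = ENNReal.ofReal (‖k‖ ^ γ) *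
      ENNReal.ofReal (bt b ε (ip k σ / ‖k‖)) *
      (ENNReal.ofReal (F (v - (1 / 2 : ℝ) • (k + ‖k‖ • (σ : E d)))) *
        ENNReal.ofReal (F (v - (1 / 2 : ℝ) • (k - ‖k‖ • (σ : E d))))) := by
    intro k σ
    have hbk : 0 ≤ ‖k‖ ^ γ * bt b ε (ip k σ / ‖k‖) :=
      mul_nonneg (Real.rpow_nonneg (norm_nonneg _) _) (hbtb k σ).1
    rw [← ENNReal.ofReal_mul (hF0 _), ← ENNReal.ofReal_mul (Real.rpow_nonneg (norm_nonneg _) _),
      ← ENNReal.ofReal_mul hbk]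
    rfl
  have hg2e : ∀ (k : E d) (σ : Sd d), ENNReal.ofReal (g2 k σ) = ENNReal.ofReal (‖k‖ ^ γ) *
      ENNReal.ofReal (bt b ε (ip k σ / ‖k‖)) *
      (ENNReal.ofReal (F (v - k)) * ENNReal.ofReal (F v)) := by
    intro k σ
    have hbk : 0 ≤ ‖k‖ ^ γ * bt b ε (ip k σ / ‖k‖) :=
      mul_nonneg (Real.rpow_nonneg (norm_nonneg _) _) (hbtb k σ).1
    rw [← ENNReal.ofReal_mul (hF0 _), ← ENNReal.ofReal_mul (Real.rpow_nonneg (norm_nonneg _) _),
      ← ENNReal.ofReal_mul hbk]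
    rfl
  have hPP : PP γ b ε F v = ∫⁻ k : E d, ∫⁻ σ : Sd d, ENNReal.ofReal (g1 k σ) ∂(mS d) := by
    unfold PP
    simp only [hg1e]
  have hNN : NN γ b ε F v = ∫⁻ k : E d, ∫⁻ σ : Sd d, ENNReal.ofReal (g2 k σ) ∂(mS d) := by
    unfold NN
    simp only [hg2e]
  refine ⟨by rw [hPP]; exact a1, by rw [hNN]; exact c1, ?_⟩
  rw [hPP, hNN, a2, c2, ← integral_sub a3 c3]
  unfold Qtr
  rw [← integral_sub_left_eq_self _ volume v]
  refine integral_congr_ae (Filter.Eventually.of_forall fun k => ?_)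
  simp only
  rw [← integral_sub (a4 k) (c4 k)]
  -- the inner integral
  have ek : v - (v - k) = k := sub_sub_cancel v k
  rw [ek]
  set G : Sd d → ℝ := fun σ => F (v1 k σ) * F (v2 k σ) - F (v - k) * F v with hG
  set h : Sd d → ℝ := fun σ => be b ε (zz k σ) * (‖k‖ ^ γ * G σ) with hh
  have e1 : ∀ σ : Sd d, (if ip k σ / ‖k‖ < 1 - ε then
      (F (vps v (v - k) σ) * F (vp v (v - k) σ) - F (v - k) * F v) *
        (‖k‖ ^ γ * b (ip k σ / ‖k‖)) else 0) = h σ := by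
    intro σ
    have e3 : vps v (v - k) σ = v1 k σ := by
      unfold vps
      rw [hv1]
      simp only [ek]
      module
    have e4 : vp v (v - k) σ = v2 k σ := by
      unfold vp
      rw [hv2]
      simp only [ek]
      module
    have e8 : be b ε (zz k σ) = if ip k σ / ‖k‖ < 1 - ε then b (ip k σ / ‖k‖) else 0 := rfl
    rw [e3, e4]
    show _ = be b ε (zz k σ) * (‖k‖ ^ γ * (F (v1 k σ) * F (v2 k σ) - F (v - k) * F v))
    by_cases hlt : ip k σ / ‖k‖ < 1 - ε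
    · rw [e8, if_pos hlt, if_pos hlt]
      ring
    · rw [e8, if_neg hlt, if_neg hlt]
      ring
  simp only [e1]
  have hGneg : ∀ σ : Sd d, G (-σ) = G σ := by
    intro σ
    rw [hG]
    simp only
    have e5 : v1 k (-σ) = v2 k σ := by
      rw [hv1, hv2]
      simp only [coe_neg_sphere]
      congr 2
      rw [smul_neg, sub_eq_add_neg]
    have e6 : v2 k (-σ) = v1 k σ := by
      rw [hv1, hv2]
      simp only [coe_neg_sphere]
      congr 2
      rw [smul_neg, sub_neg_eq_add]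
    rw [e5, e6, mul_comm (F (v2 k σ))]
  -- integrability
  have hmG : Measurable G := by
    have h1 : Measurable fun σ : Sd d => F (v1 k σ) := by
      have : Continuous fun σ : Sd d => F (v1 k σ) := by
        apply hFc.comp
        rw [hv1]
        fun_prop
      exact this.measurable
    have h2 : Measurable fun σ : Sd d => F (v2 k σ) := by
      have : Continuous fun σ : Sd d => F (v2 k σ) := by
        apply hFc.comp
        rw [hv2]
        fun_prop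
      exact this.measurable
    exact (h1.mul h2).sub measurable_const
  have hhm : Measurable h := by
    have h1 : Measurable fun σ : Sd d => be b ε (zz k σ) :=
      (be_meas hK.meas ε).comp (zz_meas.comp measurable_prodMk_left)
    exact h1.mul (measurable_const.mul hmG)
  have hGb : ∀ σ, |G σ| ≤ 2 * (C ^ 2 * 2 ^ Q * (1 + ‖k‖) ^ (-Q)) := by
    intro σ
    have b1 := FF_bd hF0 hQ0 hFC _ _ k (hv12 k σ)
    have b2 := FF_bd hF0 hQ0 hFC _ _ k (hvk k)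
    have b3 : 0 ≤ F (v1 k σ) * F (v2 k σ) := mul_nonneg (hF0 _) (hF0 _)
    have b4 : 0 ≤ F (v - k) * F v := mul_nonneg (hF0 _) (hF0 _)
    rw [abs_le]
    constructor
    · show -_ ≤ F (v1 k σ) * F (v2 k σ) - F (v - k) * F v
      linarith
    · show F (v1 k σ) * F (v2 k σ) - F (v - k) * F v ≤ _
      linarith
  have hhi : Integrable h (mS d) := by
    refine bdd_int hhm (B := B * (‖k‖ ^ γ * (2 * (C ^ 2 * 2 ^ Q * (1 + ‖k‖) ^ (-Q))))) ?_
    intro σ
    have b1 := be_bd hd hs hK hε (zz_abs k σ)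
    show |be b ε (zz k σ) * (‖k‖ ^ γ * G σ)| ≤ _
    rw [abs_mul, abs_of_nonneg b1.1, abs_mul, abs_of_nonneg (Real.rpow_nonneg (norm_nonneg k) γ)]
    exact mul_le_mul b1.2 (mul_le_mul_of_nonneg_left (hGb σ) (Real.rpow_nonneg (norm_nonneg k) γ))
      (by positivity) hB
  refine sym_int hI hhi ((a4 k).sub (c4 k)) ?_
  intro σ
  have e7 : ∀ σ, g1 k σ - g2 k σ = bt b ε (zz k σ) * (‖k‖ ^ γ * G σ) := by
    intro σ
    show ‖k‖ ^ γ * bt b ε (zz k σ) * (F (v1 k σ) * F (v2 k σ)) -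
      ‖k‖ ^ γ * bt b ε (zz k σ) * (F (v - k) * F v) =
      bt b ε (zz k σ) * (‖k‖ ^ γ * (F (v1 k σ) * F (v2 k σ) - F (v - k) * F v))
    ring
  show h σ + h (-σ) = (g1 k σ - g2 k σ) + (g1 k (-σ) - g2 k (-σ))
  rw [e7, e7]
  show be b ε (zz k σ) * (‖k‖ ^ γ * G σ) + be b ε (zz k (-σ)) * (‖k‖ ^ γ * G (-σ)) = _
  rw [zz_neg, hGneg]
  have := be_bt b hε hε1 (zz k σ)
  linear_combination (‖k‖ ^ γ * G σ) * this

end Pool.Agent.L7h50.BI
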