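import Pool.Agent.L7h99.BI.Stm3
import Pool.Agent.L7h50.BI.Qpn
import Pool.Agent.L7h12.BI.Rz

/-!
Project BI3 (MP_187b32_an), part QPN3: the truncated collision operator is gain minus loss, also for
soft potentials.
-/

set_option autoImplicit false

open MeasureTheory Set Filter Topology Real
open scoped ENNReal

namespace Pool.Agent.L7h50.BI

open Pool.Agent.L7h99.BI

variable {d : ℕ}

/-- facts about dominated functions of `(k, σ)` -/
theorem dominated3 {g : E d → Sd d → ℝ} (hm : Measurable (Function.uncurry g))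
    (h0 : ∀ k σ, 0 ≤ g k σ) {D : E d → ℝ} (hdom : Integrable D)
    (hb : ∀ k σ, g k σ ≤ D k) :
    (∫⁻ k : E d, ∫⁻ σ : Sd d, ENNReal.ofReal (g k σ) ∂(mS d)) ≠ ∞ ∧
    (∫⁻ k : E d, ∫⁻ σ : Sd d, ENNReal.ofReal (g k σ) ∂(mS d)).toReal =
      ∫ k : E d, ∫ σ : Sd d, g k σ ∂(mS d) ∧
    Integrable (fun k : E d => ∫ σ : Sd d, g k σ ∂(mS d)) ∧
    ∀ k : E d, Integrable (fun σ : Sd d => g k σ) (mS d) := by
  have hprod : Integrable (Function.uncurry g) ((volume : Measure (E d)).prod (mS d)) := by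
    refine Integrable.mono' (hdom.comp_fst (mS d)) hm.aestronglyMeasurable
      (Filter.Eventually.of_forall ?_)
    rintro ⟨k, σ⟩
    show ‖g k σ‖ ≤ D k
    rw [Real.norm_of_nonneg (h0 k σ)]
    exact hb k σ
  have hlin : ∫⁻ k : E d, ∫⁻ σ : Sd d, ENNReal.ofReal (g k σ) ∂(mS d) =
      ∫⁻ p, ENNReal.ofReal (Function.uncurry g p) ∂((volume : Measure (E d)).prod (mS d)) := by
    rw [lintegral_prod _ hm.ennreal_ofReal.aemeasurable]
    rfl
  have hfin : ∫⁻ p, ENNReal.ofReal (Function.uncurry g p)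
      ∂((volume : Measure (E d)).prod (mS d)) ≠ ∞ := by
    have h1 := hprod.2
    unfold HasFiniteIntegral at h1
    refine (lt_of_le_of_lt (lintegral_mono fun p => ?_) h1).ne
    rw [← ofReal_norm]
    exact ENNReal.ofReal_le_ofReal (le_abs_self _)
  refine ⟨?_, ?_, hprod.integral_prod_left, ?_⟩
  · rw [hlin]
    exact hfin
  · rw [hlin]
    have h1 := integral_eq_lintegral_of_nonneg_ae (μ := (volume : Measure (E d)).prod (mS d))
      (f := Function.uncurry g) (Filter.Eventually.of_forall fun p => h0 p.1 p.2)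
      hm.aestronglyMeasurable
    rw [← h1, integral_prod _ hprod]
    rfl
  · intro k
    refine Integrable.mono' (integrable_const (D k))
      ((hm.comp measurable_prodMk_left).aestronglyMeasurable) (Filter.Eventually.of_forall ?_)
    intro σ
    show ‖g k σ‖ ≤ _
    rw [Real.norm_of_nonneg (h0 k σ)]
    exact hb k σ

/-- [QPN3] -/
theorem t_QPN3 : S_QPN3 := by
  intro hI d hd s hs hs1 γ hγ b c₁ c₂ hK ε hε hε1 F C Q hFc hF0 hQ hFC v
  have hγa := abs_nonneg γ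
  have hd0 : (0 : ℝ) ≤ d := Nat.cast_nonneg d
  have hQ0 : 0 ≤ Q := by linarith
  have hB := Bd_nonneg (d := d) hK hε
  set B : ℝ := Bd d s c₂ ε with hBdef
  -- velocities
  set v1 : E d → Sd d → E d := fun k σ => v - (1 / 2 : ℝ) • (k + ‖k‖ • (σ : E d)) with hv1
  set v2 : E d → Sd d → E d := fun k σ => v - (1 / 2 : ℝ) • (k - ‖k‖ • (σ : E d)) with hv2
  have hv12 : ∀ k σ, ‖k‖ ^ 2 / 2 ≤ ‖v1 k σ‖ ^ 2 + ‖v2 k σ‖ ^ 2 := by
    intro k σ
    have h1 := parallelogram_law_with_norm ℝ (v - (1 / 2 : ℝ) • k) ((1 / 2 : ℝ) • (‖k‖ • (σ : E d)))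
    have e1 : v - (1 / 2 : ℝ) • k + (1 / 2 : ℝ) • (‖k‖ • (σ : E d)) = v2 k σ := by
      rw [hv2]
      simp only
      module
    have e2 : v - (1 / 2 : ℝ) • k - (1 / 2 : ℝ) • (‖k‖ • (σ : E d)) = v1 k σ := by
      rw [hv1]
      simp only
      module
    have e3 : ‖(1 / 2 : ℝ) • (‖k‖ • (σ : E d))‖ = ‖k‖ / 2 := by
      rw [norm_smul, norm_smul, norm_sph, norm_norm, mul_one, Real.norm_of_nonneg (by norm_num)]
      ring
    rw [e1, e2, e3] at h1
    nlinarith [sq_nonneg ‖v - (1 / 2 : ℝ) • k‖]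
  have hvk : ∀ k : E d, ‖k‖ ^ 2 / 2 ≤ ‖v - k‖ ^ 2 + ‖v‖ ^ 2 := by
    intro k
    have h1 : ‖k‖ ≤ ‖v‖ + ‖v - k‖ := by
      calc ‖k‖ = ‖v - (v - k)‖ := by rw [sub_sub_cancel]
        _ ≤ ‖v‖ + ‖v - k‖ := norm_sub_le _ _
    nlinarith [norm_nonneg k, norm_nonneg v, norm_nonneg (v - k), sq_nonneg (‖v‖ - ‖v - k‖)]
  -- the two functions
  set g1 : E d → Sd d → ℝ := fun k σ => ‖k‖ ^ γ * bt b ε (zz k σ) * (F (v1 k σ) * F (v2 k σ)) with hg1
  set g2 : E d → Sd d → ℝ := fun k σ => ‖k‖ ^ γ * bt b ε (zz k σ) * (F (v - k) * F v) with hg2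
  have hmz : Measurable fun p : E d × Sd d => bt b ε (zz p.1 p.2) := (bt_meas hK.meas ε).comp zz_meas
  have hmk : Measurable fun p : E d × Sd d => ‖p.1‖ ^ γ := (measurable_fst.norm).pow_const γ
  have hmv1 : Measurable fun p : E d × Sd d => F (v1 p.1 p.2) := by
    have : Continuous fun p : E d × Sd d => F (v1 p.1 p.2) := by
      apply hFc.comp
      rw [hv1]
      fun_prop
    exact this.measurable
  have hmv2 : Measurable fun p : E d × Sd d => F (v2 p.1 p.2) := by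
    have : Continuous fun p : E d × Sd d => F (v2 p.1 p.2) := by
      apply hFc.comp
      rw [hv2]
      fun_prop
    exact this.measurable
  have hmvk : Measurable fun p : E d × Sd d => F (v - p.1) := by
    have : Continuous fun p : E d × Sd d => F (v - p.1) := by
      apply hFc.comp
      fun_prop
    exact this.measurable
  have hg1m : Measurable (Function.uncurry g1) := (hmk.mul hmz).mul (hmv1.mul hmv2)
  have hg2m : Measurable (Function.uncurry g2) := (hmk.mul hmz).mul (hmvk.mul measurable_const)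
  have hbtb : ∀ (k : E d) (σ : Sd d), 0 ≤ bt b ε (zz k σ) ∧ bt b ε (zz k σ) ≤ 2 * B :=
    fun k σ => bt_bd hd hs hK hε hε1 (zz_abs k σ)
  have hg10 : ∀ k σ, 0 ≤ g1 k σ := fun k σ =>
    mul_nonneg (mul_nonneg (Real.rpow_nonneg (norm_nonneg _) _) (hbtb k σ).1)
      (mul_nonneg (hF0 _) (hF0 _))
  have hg20 : ∀ k σ, 0 ≤ g2 k σ := fun k σ =>
    mul_nonneg (mul_nonneg (Real.rpow_nonneg (norm_nonneg _) _) (hbtb k σ).1)
      (mul_nonneg (hF0 _) (hF0 _))
  set D : E d → ℝ := fun k => (if ‖k‖ < 1 then ‖k‖ ^ γ else 0) + (1 + ‖k‖) ^ (-(Q - |γ|)) with hD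
  have hpow : ∀ k : E d, ‖k‖ ^ γ * (1 + ‖k‖) ^ (-Q) ≤ D k := by
    intro k
    have h2 : 0 < 1 + ‖k‖ := by positivity
    have h3 : 0 ≤ (1 + ‖k‖) ^ (-(Q - |γ|)) := Real.rpow_nonneg h2.le _
    show ‖k‖ ^ γ * (1 + ‖k‖) ^ (-Q) ≤ (if ‖k‖ < 1 then ‖k‖ ^ γ else 0) + (1 + ‖k‖) ^ (-(Q - |γ|))
    by_cases hk : ‖k‖ < 1
    · rw [if_pos hk]
      have h4 : (1 + ‖k‖) ^ (-Q) ≤ 1 :=
        Real.rpow_le_one_of_one_le_of_nonpos (by linarith [norm_nonneg k]) (by linarith)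
      have h5 : ‖k‖ ^ γ * (1 + ‖k‖) ^ (-Q) ≤ ‖k‖ ^ γ * 1 :=
        mul_le_mul_of_nonneg_left h4 (Real.rpow_nonneg (norm_nonneg _) _)
      linarith
    · rw [if_neg hk, zero_add]
      push Not at hk
      have h1 : ‖k‖ ^ γ ≤ (1 + ‖k‖) ^ |γ| :=
        (Real.rpow_le_rpow_of_exponent_le hk (le_abs_self γ)).trans
          (Real.rpow_le_rpow (norm_nonneg _) (by linarith) hγa)
      calc ‖k‖ ^ γ * (1 + ‖k‖) ^ (-Q) ≤ (1 + ‖k‖) ^ |γ| * (1 + ‖k‖) ^ (-Q) :=
            mul_le_mul_of_nonneg_right h1 (Real.rpow_nonneg h2.le _)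
        _ = _ := by
            rw [← Real.rpow_add h2]
            congr 1
            ring
  have hDi : Integrable (fun k : E d => (2 * B * (C ^ 2 * 2 ^ Q)) * D k) := by
    refine Integrable.const_mul ?_ _
    obtain ⟨A, -, hA⟩ := Pool.Agent.L7h12.BI.riesz_loc (d := d) hd hγ
    refine ((hA 1 one_pos).1).add ?_
    apply integrable_one_add_norm
    rw [finrank_euclideanSpace, Fintype.card_fin]
    linarith
  have hbound : ∀ (k : E d) (σ : Sd d) (a c : E d), ‖k‖ ^ 2 / 2 ≤ ‖a‖ ^ 2 + ‖c‖ ^ 2 →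
      ‖k‖ ^ γ * bt b ε (zz k σ) * (F a * F c) ≤
        (2 * B * (C ^ 2 * 2 ^ Q)) * D k := by
    intro k σ a c hac
    have h1 := FF_bd hF0 hQ0 hFC a c k hac
    have h2 := (hbtb k σ)
    have h3 : 0 ≤ ‖k‖ ^ γ := Real.rpow_nonneg (norm_nonneg _) _
    have h4 : 0 ≤ F a * F c := mul_nonneg (hF0 _) (hF0 _)
    calc ‖k‖ ^ γ * bt b ε (zz k σ) * (F a * F c) ≤ ‖k‖ ^ γ * (2 * B) * (F a * F c) :=
          mul_le_mul_of_nonneg_right (mul_le_mul_of_nonneg_left h2.2 h3) h4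
      _ ≤ ‖k‖ ^ γ * (2 * B) * (C ^ 2 * 2 ^ Q * (1 + ‖k‖) ^ (-Q)) :=
          mul_le_mul_of_nonneg_left h1 (by positivity)
      _ = (2 * B * (C ^ 2 * 2 ^ Q)) * (‖k‖ ^ γ * (1 + ‖k‖) ^ (-Q)) := by ring
      _ ≤ _ := mul_le_mul_of_nonneg_left (hpow k) (by positivity)
  obtain ⟨a1, a2, a3, a4⟩ := dominated3 hg1m hg10 hDi (fun k σ => hbound k σ _ _ (hv12 k σ))
  obtain ⟨c1, c2, c3, c4⟩ := dominated3 hg2m hg20 hDi (fun k σ => hbound k σ _ _ (hvk k))
  have hg1e : ∀ (k : E d) (σ : Sd d), ENNReal.ofReal (g1 k σ) = ENNReal.ofReal (‖k‖ ^ γ) *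
      ENNReal.ofReal (bt b ε (ip k σ / ‖k‖)) *
      (ENNReal.ofReal (F (v - (1 / 2 : ℝ) • (k + ‖k‖ • (σ : E d)))) *
        ENNReal.ofReal (F (v - (1 / 2 : ℝ) • (k - ‖k‖ • (σ : E d))))) := by
    intro k σ
    have hbk : 0 ≤ ‖k‖ ^ γ * bt b ε (ip k σ / ‖k‖) :=
      mul_nonneg (Real.rpow_nonneg (norm_nonneg _) _) (hbtb k σ).1
    rw [← ENNReal.ofReal_mul (hF0 _), ← ENNReal.ofReal_mul (Real.rpow_nonneg (norm_nonneg _) _),
      ← ENNReal.ofReal_mul hbk]
    rfl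
  have hg2e : ∀ (k : E d) (σ : Sd d), ENNReal.ofReal (g2 k σ) = ENNReal.ofReal (‖k‖ ^ γ) *
      ENNReal.ofReal (bt b ε (ip k σ / ‖k‖)) *
      (ENNReal.ofReal (F (v - k)) * ENNReal.ofReal (F v)) := by
    intro k σ
    have hbk : 0 ≤ ‖k‖ ^ γ * bt b ε (ip k σ / ‖k‖) :=
      mul_nonneg (Real.rpow_nonneg (norm_nonneg _) _) (hbtb k σ).1
    rw [← ENNReal.ofReal_mul (hF0 _), ← ENNReal.ofReal_mul (Real.rpow_nonneg (norm_nonneg _) _),
      ← ENNReal.ofReal_mul hbk]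
    rfl
  have hPP : PP γ b ε F v = ∫⁻ k : E d, ∫⁻ σ : Sd d, ENNReal.ofReal (g1 k σ) ∂(mS d) := by
    unfold PP
    simp only [hg1e]
  have hNN : NN γ b ε F v = ∫⁻ k : E d, ∫⁻ σ : Sd d, ENNReal.ofReal (g2 k σ) ∂(mS d) := by
    unfold NN
    simp only [hg2e]
  refine ⟨by rw [hPP]; exact a1, by rw [hNN]; exact c1, ?_⟩
  rw [hPP, hNN, a2, c2, ← integral_sub a3 c3]
  unfold Qtr
  rw [← integral_sub_left_eq_self _ volume v]
  refine integral_congr_ae (Filter.Eventually.of_forall fun k => ?_)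
  simp only
  rw [← integral_sub (a4 k) (c4 k)]
  -- the inner integral
  have ek : v - (v - k) = k := sub_sub_cancel v k
  rw [ek]
  set G : Sd d → ℝ := fun σ => F (v1 k σ) * F (v2 k σ) - F (v - k) * F v with hG
  set h : Sd d → ℝ := fun σ => be b ε (zz k σ) * (‖k‖ ^ γ * G σ) with hh
  have e1 : ∀ σ : Sd d, (if ip k σ / ‖k‖ < 1 - ε then
      (F (vps v (v - k) σ) * F (vp v (v - k) σ) - F (v - k) * F v) *
        (‖k‖ ^ γ * b (ip k σ / ‖k‖)) else 0) = h σ := by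
    intro σ
    have e3 : vps v (v - k) σ = v1 k σ := by
      unfold vps
      rw [hv1]
      simp only [ek]
      module
    have e4 : vp v (v - k) σ = v2 k σ := by
      unfold vp
      rw [hv2]
      simp only [ek]
      module
    have e8 : be b ε (zz k σ) = if ip k σ / ‖k‖ < 1 - ε then b (ip k σ / ‖k‖) else 0 := rfl
    rw [e3, e4]
    show _ = be b ε (zz k σ) * (‖k‖ ^ γ * (F (v1 k σ) * F (v2 k σ) - F (v - k) * F v))
    by_cases hlt : ip k σ / ‖k‖ < 1 - ε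
    · rw [e8, if_pos hlt, if_pos hlt]
      ring
    · rw [e8, if_neg hlt, if_neg hlt]
      ring
  simp only [e1]
  have hGneg : ∀ σ : Sd d, G (-σ) = G σ := by
    intro σ
    rw [hG]
    simp only
    have e5 : v1 k (-σ) = v2 k σ := by
      rw [hv1, hv2]
      simp only [coe_neg_sphere]
      congr 2
      rw [smul_neg, sub_eq_add_neg]
    have e6 : v2 k (-σ) = v1 k σ := by
      rw [hv1, hv2]
      simp only [coe_neg_sphere]
      congr 2
      rw [smul_neg, sub_neg_eq_add]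
    rw [e5, e6, mul_comm (F (v2 k σ))]
  -- integrability
  have hmG : Measurable G := by
    have h1 : Measurable fun σ : Sd d => F (v1 k σ) := by
      have : Continuous fun σ : Sd d => F (v1 k σ) := by
        apply hFc.comp
        rw [hv1]
        fun_prop
      exact this.measurable
    have h2 : Measurable fun σ : Sd d => F (v2 k σ) := by
      have : Continuous fun σ : Sd d => F (v2 k σ) := by
        apply hFc.comp
        rw [hv2]
        fun_prop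
      exact this.measurable
    exact (h1.mul h2).sub measurable_const
  have hhm : Measurable h := by
    have h1 : Measurable fun σ : Sd d => be b ε (zz k σ) :=
      (be_meas hK.meas ε).comp (zz_meas.comp measurable_prodMk_left)
    exact h1.mul (measurable_const.mul hmG)
  have hGb : ∀ σ, |G σ| ≤ 2 * (C ^ 2 * 2 ^ Q * (1 + ‖k‖) ^ (-Q)) := by
    intro σ
    have b1 := FF_bd hF0 hQ0 hFC _ _ k (hv12 k σ)
    have b2 := FF_bd hF0 hQ0 hFC _ _ k (hvk k)
    have b3 : 0 ≤ F (v1 k σ) * F (v2 k σ) := mul_nonneg (hF0 _) (hF0 _)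
    have b4 : 0 ≤ F (v - k) * F v := mul_nonneg (hF0 _) (hF0 _)
    rw [abs_le]
    constructor
    · show -_ ≤ F (v1 k σ) * F (v2 k σ) - F (v - k) * F v
      linarith
    · show F (v1 k σ) * F (v2 k σ) - F (v - k) * F v ≤ _
      linarith
  have hhi : Integrable h (mS d) := by
    refine bdd_int hhm (B := B * (‖k‖ ^ γ * (2 * (C ^ 2 * 2 ^ Q * (1 + ‖k‖) ^ (-Q))))) ?_
    intro σ
    have b1 := be_bd hd hs hK hε (zz_abs k σ)
    show |be b ε (zz k σ) * (‖k‖ ^ γ * G σ)| ≤ _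
    rw [abs_mul, abs_of_nonneg b1.1, abs_mul, abs_of_nonneg (Real.rpow_nonneg (norm_nonneg k) γ)]
    exact mul_le_mul b1.2 (mul_le_mul_of_nonneg_left (hGb σ) (Real.rpow_nonneg (norm_nonneg k) γ))
      (by positivity) hB
  refine sym_int hI hhi ((a4 k).sub (c4 k)) ?_
  intro σ
  have e7 : ∀ σ, g1 k σ - g2 k σ = bt b ε (zz k σ) * (‖k‖ ^ γ * G σ) := by
    intro σ
    show ‖k‖ ^ γ * bt b ε (zz k σ) * (F (v1 k σ) * F (v2 k σ)) -
      ‖k‖ ^ γ * bt b ε (zz k σ) * (F (v - k) * F v) =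
      bt b ε (zz k σ) * (‖k‖ ^ γ * (F (v1 k σ) * F (v2 k σ) - F (v - k) * F v))
    ring
  show h σ + h (-σ) = (g1 k σ - g2 k σ) + (g1 k (-σ) - g2 k (-σ))
  rw [e7, e7]
  show be b ε (zz k σ) * (‖k‖ ^ γ * G σ) + be b ε (zz k (-σ)) * (‖k‖ ^ γ * G (-σ)) = _
  rw [zz_neg, hGneg]
  have := be_bt b hε hε1 (zz k σ)
  linear_combination (‖k‖ ^ γ * G σ) * this

end Pool.Agent.L7h50.BI
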